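import Pool.Agent.Helper80.EC_F.Goals
import Pool.Agent.Helper86.EC_F.SUMT

/-! Packet S5A of MP_ecc237 Part F (helper80). -/

set_option autoImplicit false

open MeasureTheory Filter Topology Set

namespace EC237.PF.PkS5A

open EC237.PF.PkSUMT

/-- `Mn` -/
noncomputable def mn (p : ℕ × ℕ) : ℝ := ((p.1:ℝ) + 1) * ((p.2:ℝ) + 1)

theorem one_le_mn (p : ℕ × ℕ) : 1 ≤ mn p := by
  unfold mn
  have h1 : (0:ℝ) ≤ p.1 := by positivity
  have h2 : (0:ℝ) ≤ p.2 := by positivity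
  nlinarith

theorem sumS {c : ℝ} (hc : 0 < c) {w : ℕ × ℕ → ℝ} (hw : ∀ p, 0 ≤ w p) (hw6 : ∀ p, w p ≤ mn p ^ 6) :
    Summable (fun p : ℕ × ℕ => w p * Real.exp (-(c * mn p))) := by
  refine summable_of_bound _ 1 c hc (fun p => ?_)
  rw [abs_of_nonneg (mul_nonneg (hw p) (Real.exp_pos _).le), one_mul]
  exact mul_le_mul_of_nonneg_right (hw6 p) (Real.exp_pos _).le

theorem M_le (p : ℕ × ℕ) : (p.1:ℝ) + 1 ≤ mn p := by
  unfold mn
  have h1 : (0:ℝ) ≤ p.1 := by positivity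
  have h2 : (0:ℝ) ≤ p.2 := by positivity
  nlinarith

theorem N_le (p : ℕ × ℕ) : (p.2:ℝ) + 1 ≤ mn p := by
  unfold mn
  have h1 : (0:ℝ) ≤ p.1 := by positivity
  have h2 : (0:ℝ) ≤ p.2 := by positivity
  nlinarith

theorem M_le6 (p : ℕ × ℕ) : (p.1:ℝ) + 1 ≤ mn p ^ 6 :=
  (M_le p).trans (le_self_pow₀ (one_le_mn p) (by norm_num))

theorem N2_le6 (p : ℕ × ℕ) : ((p.2:ℝ) + 1) ^ 2 ≤ mn p ^ 6 :=
  (pow_le_pow_left₀ (by positivity) (N_le p) 2).trans
    (pow_le_pow_right₀ (one_le_mn p) (by norm_num))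

theorem x_le_exp {x : ℝ} : x ≤ Real.exp x := by linarith [Real.add_one_le_exp x]

theorem M0e_small : ∃ C : ℝ, ∀ y : ℝ, 0 < y → y ≤ 1 →
    |M0e y| ≤ C * Real.exp (-(Real.pi / 24 / y)) := by
  have hπ := Real.pi_pos
  have hs := sumS (c := Real.pi / 6) (by positivity) (w := fun p => (p.1:ℝ) + 1)
    (fun p => by positivity) M_le6
  refine ⟨Real.pi ^ 2 / 9 * (12 / Real.pi) * ∑' p : ℕ × ℕ, (((p.1:ℝ) + 1) *
    Real.exp (-(Real.pi / 6 * mn p))), fun y hy hy1 => ?_⟩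
  unfold M0e
  rw [← Real.norm_eq_abs]
  have hy' : 1 ≤ 1 / y := by rw [le_div_iff₀ hy]; linarith
  have key := tsum_of_norm_bounded (f := tM0 y)
    ((hs.mul_left (Real.pi ^ 2 / 9 * (12 / Real.pi) * Real.exp (-(Real.pi / 24 / y)))).hasSum)
    (fun p => ?_)
  · rw [tsum_mul_left] at key
    refine key.trans (le_of_eq ?_)
    ring
  · unfold tM0
    rw [Real.norm_eq_abs, abs_mul, abs_mul, abs_mul, abs_of_pos (Real.exp_pos _),
      abs_of_nonneg (show (0:ℝ) ≤ Real.pi ^ 2 / (9 * y) by positivity),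
      abs_of_nonneg (show (0:ℝ) ≤ ((p.1:ℝ) + 1) / ((p.2:ℝ) + 1) by positivity)]
    have h1 := abs_sn p
    have h2 : ((p.1:ℝ) + 1) / ((p.2:ℝ) + 1) ≤ (p.1:ℝ) + 1 :=
      div_le_self (by positivity) (by linarith [show (0:ℝ) ≤ p.2 by positivity])
    have h3 : Real.exp (-(Real.pi * ((p.1:ℝ) + 1) * ((p.2:ℝ) + 1) / (3 * y))) ≤
        Real.exp (-(Real.pi / 6 / y)) * Real.exp (-(Real.pi / 6 * mn p)) := by
      rw [← Real.exp_add]
      apply Real.exp_le_exp.mpr
      have h4 := one_le_mn p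
      have e : Real.pi * ((p.1:ℝ) + 1) * ((p.2:ℝ) + 1) / (3 * y) = Real.pi / 3 * (mn p * (1 / y)) := by
        unfold mn; field_simp
      have e2 : Real.pi / 6 / y = Real.pi / 6 * (1 / y) := by ring
      rw [e, e2]
      have h5 : 1 / y ≤ mn p * (1 / y) := by nlinarith
      have h6 : mn p ≤ mn p * (1 / y) := by nlinarith
      nlinarith
    have h7 : 1 / y * Real.exp (-(Real.pi / 6 / y)) ≤
        12 / Real.pi * Real.exp (-(Real.pi / 24 / y)) := by
      have h8 : 1 / y ≤ 12 / Real.pi * Real.exp (Real.pi / 12 / y) := by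
        have := x_le_exp (x := Real.pi / 12 / y)
        calc 1 / y = 12 / Real.pi * (Real.pi / 12 / y) := by field_simp
          _ ≤ _ := by gcongr
      calc 1 / y * Real.exp (-(Real.pi / 6 / y))
          ≤ 12 / Real.pi * Real.exp (Real.pi / 12 / y) * Real.exp (-(Real.pi / 6 / y)) := by gcongr
        _ = 12 / Real.pi * Real.exp (-(Real.pi / 12 / y)) := by
            rw [mul_assoc, ← Real.exp_add]; congr 2; ring
        _ ≤ _ := by
            gcongr
            norm_num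
    calc Real.pi ^ 2 / (9 * y) * (|sn p| * (((p.1:ℝ) + 1) / ((p.2:ℝ) + 1)) *
          Real.exp (-(Real.pi * ((p.1:ℝ) + 1) * ((p.2:ℝ) + 1) / (3 * y))))
        ≤ Real.pi ^ 2 / (9 * y) * (1 * ((p.1:ℝ) + 1) *
          (Real.exp (-(Real.pi / 6 / y)) * Real.exp (-(Real.pi / 6 * mn p)))) := by gcongr
      _ = Real.pi ^ 2 / 9 * (1 / y * Real.exp (-(Real.pi / 6 / y))) *
          (((p.1:ℝ) + 1) * Real.exp (-(Real.pi / 6 * mn p))) := by field_simp
      _ ≤ Real.pi ^ 2 / 9 * (12 / Real.pi * Real.exp (-(Real.pi / 24 / y))) *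
          (((p.1:ℝ) + 1) * Real.exp (-(Real.pi / 6 * mn p))) := by gcongr
      _ = _ := by ring

theorem EE_small : ∃ C : ℝ, ∀ z : ℝ, 1 ≤ z → |EE z| ≤ C * Real.exp (-(Real.pi / 24 * z)) := by
  have hπ := Real.pi_pos
  have hs := sumS (c := Real.pi / 12) (by positivity) (w := fun p => (p.1:ℝ) + 1)
    (fun p => by positivity) M_le6
  refine ⟨4 * Real.pi ^ 2 / 9 * (24 / Real.pi) * ∑' p : ℕ × ℕ, (((p.1:ℝ) + 1) *
    Real.exp (-(Real.pi / 12 * mn p))), fun z hz => ?_⟩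
  have hz0 : 0 < z := by linarith
  unfold EE
  rw [← Real.norm_eq_abs]
  have key := tsum_of_norm_bounded (f := tE z)
    ((hs.mul_left (4 * Real.pi ^ 2 / 9 * (24 / Real.pi) * Real.exp (-(Real.pi / 24 * z)))).hasSum)
    (fun p => ?_)
  · rw [tsum_mul_left] at key
    refine key.trans (le_of_eq ?_)
    ring
  · unfold tE
    set n : ℝ := (p.2:ℝ) + 1 with hn
    have hn1 : 1 ≤ n := by rw [hn]; linarith [show (0:ℝ) ≤ p.2 by positivity]
    set M : ℝ := (p.1:ℝ) + 1 with hM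
    have hM1 : 1 ≤ M := by rw [hM]; linarith [show (0:ℝ) ≤ p.1 by positivity]
    have hmn : mn p = M * n := rfl
    set u : ℝ := Real.pi * M * z / 3 * n with hu
    have hu0 : 0 ≤ u := by positivity
    have e1 : 1 / n ^ 3 + Real.pi * M * z / 3 / n ^ 2 + (Real.pi * M * z / 3) ^ 2 / (2 * n) =
        (1 + u + u ^ 2 / 2) / n ^ 3 := by
      rw [hu]; field_simp
    rw [e1, Real.norm_eq_abs, abs_mul, abs_mul, abs_mul, abs_mul, abs_of_pos (Real.exp_pos _),
      abs_of_nonneg (show (0:ℝ) ≤ Real.pi ^ 2 * z / 9 by positivity),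
      abs_of_nonneg (show (0:ℝ) ≤ M by positivity),
      abs_of_nonneg (show (0:ℝ) ≤ (1 + u + u ^ 2 / 2) / n ^ 3 by positivity)]
    have h1 := abs_sn p
    have h2 : (1 + u + u ^ 2 / 2) / n ^ 3 ≤ 1 + u + u ^ 2 / 2 :=
      div_le_self (by positivity) (one_le_pow₀ hn1)
    have h3 : 1 + u + u ^ 2 / 2 ≤ 4 * Real.exp (u / 2) := by
      have := Real.quadratic_le_exp_of_nonneg (show 0 ≤ u / 2 by positivity)
      nlinarith
    have h4 : Real.exp (-(u / 2)) ≤ Real.exp (-(Real.pi / 12 * z)) * Real.exp (-(Real.pi / 12 * mn p)) := by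
      rw [← Real.exp_add]
      apply Real.exp_le_exp.mpr
      have h5 := one_le_mn p
      have e : u / 2 = Real.pi / 6 * (mn p * z) := by rw [hu, hmn]; ring
      rw [e]
      have h6 : z ≤ mn p * z := by nlinarith
      have h7 : mn p ≤ mn p * z := by nlinarith
      nlinarith
    have h8 : z * Real.exp (-(Real.pi / 12 * z)) ≤ 24 / Real.pi * Real.exp (-(Real.pi / 24 * z)) := by
      have h9 : z ≤ 24 / Real.pi * Real.exp (Real.pi / 24 * z) := by
        have := x_le_exp (x := Real.pi / 24 * z)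
        calc z = 24 / Real.pi * (Real.pi / 24 * z) := by field_simp
          _ ≤ _ := by gcongr
      calc z * Real.exp (-(Real.pi / 12 * z))
          ≤ 24 / Real.pi * Real.exp (Real.pi / 24 * z) * Real.exp (-(Real.pi / 12 * z)) := by gcongr
        _ = _ := by rw [mul_assoc, ← Real.exp_add]; congr 2; ring
    calc Real.pi ^ 2 * z / 9 * (|sn p| * M * ((1 + u + u ^ 2 / 2) / n ^ 3) * Real.exp (-u))
        ≤ Real.pi ^ 2 * z / 9 * (1 * M * (4 * Real.exp (u / 2)) * Real.exp (-u)) := by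
          have := h2.trans h3
          gcongr
      _ = 4 * Real.pi ^ 2 / 9 * z * M * Real.exp (-(u / 2)) := by
          have : Real.exp (-(u / 2)) = Real.exp (u / 2) * Real.exp (-u) := by
            rw [← Real.exp_add]; congr 1; ring
          rw [this]; ring
      _ ≤ 4 * Real.pi ^ 2 / 9 * z * M * (Real.exp (-(Real.pi / 12 * z)) *
            Real.exp (-(Real.pi / 12 * mn p))) := by gcongr
      _ = 4 * Real.pi ^ 2 / 9 * (z * Real.exp (-(Real.pi / 12 * z))) *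
            (M * Real.exp (-(Real.pi / 12 * mn p))) := by ring
      _ ≤ 4 * Real.pi ^ 2 / 9 * (24 / Real.pi * Real.exp (-(Real.pi / 24 * z))) *
            (M * Real.exp (-(Real.pi / 12 * mn p))) := by gcongr
      _ = _ := by ring

theorem M0e_large : ∃ C : ℝ, 0 ≤ C ∧ ∀ y : ℝ, 0 < y → |M0e y| ≤ C * y ^ 2 := by
  have hπ := Real.pi_pos
  refine ⟨18 / Real.pi * ∑' p : ℕ × ℕ, (1 / ((p.1:ℝ) + 1) ^ 2) * (1 / ((p.2:ℝ) + 1) ^ 2),
    mul_nonneg (by positivity) (tsum_nonneg fun p => by positivity), fun y hy => ?_⟩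
  unfold M0e
  rw [← Real.norm_eq_abs]
  have key := tsum_of_norm_bounded (f := tM0 y)
    ((summable_base.mul_left (18 / Real.pi * y ^ 2)).hasSum) (fun p => ?_)
  · rw [tsum_mul_left] at key
    refine key.trans (le_of_eq ?_)
    ring
  · unfold tM0
    set n : ℝ := (p.2:ℝ) + 1 with hn
    have hn1 : 1 ≤ n := by rw [hn]; linarith [show (0:ℝ) ≤ p.2 by positivity]
    set M : ℝ := (p.1:ℝ) + 1 with hM
    have hM1 : 1 ≤ M := by rw [hM]; linarith [show (0:ℝ) ≤ p.1 by positivity]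
    rw [Real.norm_eq_abs, abs_mul, abs_mul, abs_mul, abs_of_pos (Real.exp_pos _),
      abs_of_nonneg (show (0:ℝ) ≤ Real.pi ^ 2 / (9 * y) by positivity),
      abs_of_nonneg (show (0:ℝ) ≤ M / n by positivity)]
    have h1 := abs_sn p
    have h2 := exp_le (Real.pi * M * n / (3 * y)) (by positivity) 3
    calc Real.pi ^ 2 / (9 * y) * (|sn p| * (M / n) * Real.exp (-(Real.pi * M * n / (3 * y))))
        ≤ Real.pi ^ 2 / (9 * y) * (1 * (M / n) *
          (((3:ℕ).factorial : ℝ) / (Real.pi * M * n / (3 * y)) ^ 3)) := by gcongr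
      _ = 18 / Real.pi * y ^ 2 * (1 / M ^ 2 * (1 / n ^ 4)) := by
          rw [show ((3:ℕ).factorial : ℝ) = 6 by norm_num [Nat.factorial]]
          field_simp
          norm_num
      _ ≤ 18 / Real.pi * y ^ 2 * (1 / M ^ 2 * (1 / n ^ 2)) := by
          have : 1 / n ^ 4 ≤ 1 / n ^ 2 :=
            one_div_le_one_div_of_le (by positivity) (pow_le_pow_right₀ hn1 (by norm_num))
          gcongr

theorem M2s_large : ∃ C : ℝ, 0 ≤ C ∧ ∀ y : ℝ, 1 ≤ y →
    |M2s y| ≤ C * Real.exp (-(Real.pi / 4 * y)) := by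
  have hπ := Real.pi_pos
  have hs := sumS (c := Real.pi / 4) (by positivity) (w := fun p => ((p.2:ℝ) + 1) ^ 2)
    (fun p => by positivity) N2_le6
  refine ⟨Real.pi ^ 3 / 2 * ∑' p : ℕ × ℕ, (((p.2:ℝ) + 1) ^ 2 *
    Real.exp (-(Real.pi / 4 * mn p))), mul_nonneg (by positivity)
      (tsum_nonneg fun p => by positivity), fun y hy => ?_⟩
  have hy0 : 0 < y := by linarith
  unfold M2s
  rw [← Real.norm_eq_abs]
  have key := tsum_of_norm_bounded (f := tM2 y)
    ((hs.mul_left (Real.pi ^ 3 / 2 * Real.exp (-(Real.pi / 4 * y)))).hasSum) (fun p => ?_)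
  · rw [tsum_mul_left] at key
    refine key.trans (le_of_eq ?_)
    ring
  · unfold tM2 QQ
    set n : ℝ := (p.2:ℝ) + 1 with hn
    have hn1 : 1 ≤ n := by rw [hn]; linarith [show (0:ℝ) ≤ p.2 by positivity]
    set M : ℝ := (p.1:ℝ) + 1 with hM
    have hM1 : 1 ≤ M := by rw [hM]; linarith [show (0:ℝ) ≤ p.1 by positivity]
    have hmn : mn p = M * n := rfl
    set x : ℝ := Real.pi * M * n * y with hx
    have hx0 : 0 ≤ x := by positivity
    have hchi : |chi ((p.1:ℤ) + 1)| ≤ 1 := by unfold chi; split_ifs <;> simp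
    have hsg : |sgn2 p| ≤ 1 := by
      unfold sgn2; rw [abs_pow, abs_neg, abs_one, one_pow]
    rw [Real.norm_eq_abs, abs_mul, abs_mul, abs_mul, abs_mul, abs_mul, abs_neg,
      abs_of_pos (Real.exp_pos _),
      abs_of_nonneg (show (0:ℝ) ≤ Real.pi ^ 3 / (4 * y) by positivity),
      abs_of_nonneg (show (0:ℝ) ≤ n ^ 2 / M ^ 2 by positivity),
      abs_of_nonneg (show (0:ℝ) ≤ 1 + x by positivity)]
    have h1 : Real.pi ^ 3 / (4 * y) ≤ Real.pi ^ 3 / 4 := by
      apply div_le_div_of_nonneg_left (by positivity) (by norm_num) (by linarith)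
    have h2 : n ^ 2 / M ^ 2 ≤ n ^ 2 := div_le_self (by positivity) (one_le_pow₀ hM1)
    have h3 : (1 + x) * Real.exp (-x) ≤ 2 * Real.exp (-(x / 2)) := by
      have h4 : 1 + x ≤ 2 * Real.exp (x / 2) := by
        have := Real.add_one_le_exp (x / 2); linarith
      calc (1 + x) * Real.exp (-x) ≤ 2 * Real.exp (x / 2) * Real.exp (-x) := by gcongr
        _ = _ := by rw [mul_assoc, ← Real.exp_add]; congr 2; ring
    have h5 : Real.exp (-(x / 2)) ≤ Real.exp (-(Real.pi / 4 * y)) * Real.exp (-(Real.pi / 4 * mn p)) := by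
      rw [← Real.exp_add]
      apply Real.exp_le_exp.mpr
      have h5 := one_le_mn p
      have e : x / 2 = Real.pi / 2 * (mn p * y) := by rw [hx, hmn]; ring
      rw [e]
      have h6 : y ≤ mn p * y := by nlinarith
      have h7 : mn p ≤ mn p * y := by nlinarith
      nlinarith
    calc Real.pi ^ 3 / (4 * y) * (|chi ((p.1:ℤ) + 1)| * (n ^ 2 / M ^ 2) * |sgn2 p| * (1 + x) *
          Real.exp (-x))
        ≤ Real.pi ^ 3 / 4 * (1 * n ^ 2 * 1 * (1 + x) * Real.exp (-x)) := by gcongr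
      _ = Real.pi ^ 3 / 4 * n ^ 2 * ((1 + x) * Real.exp (-x)) := by ring
      _ ≤ Real.pi ^ 3 / 4 * n ^ 2 * (2 * Real.exp (-(x / 2))) := by gcongr
      _ ≤ Real.pi ^ 3 / 4 * n ^ 2 * (2 * (Real.exp (-(Real.pi / 4 * y)) *
            Real.exp (-(Real.pi / 4 * mn p)))) := by gcongr
      _ = _ := by ring

theorem thm (h1 : G_M0E) (h2 : G_M2E) (h3 : G_M2Q) (_h4 : G_SUMT) : EC237.S5a := by
  have hπ := Real.pi_pos
  obtain ⟨C1, hC1⟩ := M0e_small
  obtain ⟨C2, hC2⟩ := EE_small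
  obtain ⟨C3, hC30, hC3⟩ := M0e_large
  obtain ⟨C4, hC40, hC4⟩ := M2s_large
  refine ⟨⟨Z5, max C1 C2, Real.pi / 24, by positivity, fun y hy hy1 => ⟨?_, ?_⟩⟩, ?_⟩
  · rw [h1 y hy]
    have e : Real.sqrt 3 * Real.pi ^ 3 / 54 / y ^ 2 + M0e y -
        Real.sqrt 3 * Real.pi ^ 3 / 54 * (y⁻¹) ^ 2 = M0e y := by
      rw [inv_pow]; ring
    rw [e]
    refine (hC1 y hy hy1).trans ?_
    gcongr
    exact le_max_left _ _
  · rw [h2 y hy]
    have e : -(2 * Z5 / y ^ 4) + EE y⁻¹ + 2 * Z5 * (y⁻¹) ^ 4 = EE y⁻¹ := by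
      rw [inv_pow]; ring
    rw [e]
    have hz : 1 ≤ y⁻¹ := (one_le_inv₀ hy).mpr hy1
    refine (hC2 _ hz).trans ?_
    rw [show Real.pi / 24 * y⁻¹ = Real.pi / 24 / y by ring]
    gcongr
    exact le_max_right _ _
  · have hb : ∀ y : ℝ, 1 ≤ y → |y * (M0 y * M2 y)| ≤
        (Real.sqrt 3 * Real.pi ^ 3 / 54 + C3) * C4 * (y ^ 3 * Real.exp (-(Real.pi / 4) * y)) := by
      intro y hy
      have hy0 : 0 < y := by linarith
      have a1 : |M0 y| ≤ (Real.sqrt 3 * Real.pi ^ 3 / 54 + C3) * y ^ 2 := by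
        rw [h1 y hy0]
        refine (abs_add_le _ _).trans ?_
        rw [abs_of_nonneg (show (0:ℝ) ≤ Real.sqrt 3 * Real.pi ^ 3 / 54 / y ^ 2 by positivity),
          add_mul]
        refine add_le_add ?_ (hC3 y hy0)
        rw [div_le_iff₀ (by positivity)]
        have : 1 ≤ y ^ 2 * y ^ 2 := by nlinarith [one_le_pow₀ hy (n := 2)]
        have h0 : 0 ≤ Real.sqrt 3 * Real.pi ^ 3 / 54 := by positivity
        nlinarith
      have a2 : |M2 y| ≤ C4 * Real.exp (-(Real.pi / 4) * y) := by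
        rw [h3 y hy0, neg_mul]; exact hC4 y hy
      rw [abs_mul, abs_mul, abs_of_pos hy0]
      calc y * (|M0 y| * |M2 y|) ≤ y * (((Real.sqrt 3 * Real.pi ^ 3 / 54 + C3) * y ^ 2) *
            (C4 * Real.exp (-(Real.pi / 4) * y))) := by gcongr
        _ = _ := by ring
    have ht := Real.tendsto_pow_mul_exp_neg_atTop_nhds_zero 3
    have ht2 : Tendsto (fun y : ℝ => y ^ 3 * Real.exp (-(Real.pi / 4) * y)) atTop (𝓝 0) := by
      have h5 : Tendsto (fun y : ℝ => Real.pi / 4 * y) atTop atTop :=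
        tendsto_id.const_mul_atTop (by positivity)
      have h6 := (ht.comp h5).const_mul ((4 / Real.pi) ^ 3)
      rw [mul_zero] at h6
      refine h6.congr (fun y => ?_)
      simp only [Function.comp]
      rw [neg_mul]
      field_simp
    have ht3 := ht2.const_mul ((Real.sqrt 3 * Real.pi ^ 3 / 54 + C3) * C4)
    rw [mul_zero] at ht3
    refine squeeze_zero_norm' ?_ ht3
    filter_upwards [eventually_ge_atTop 1] with y hy
    rw [Real.norm_eq_abs]
    exact hb y hy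

end EC237.PF.PkS5A
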